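import Pool.Agent.X190.Absorb

/-! A reduced free product of a sequence of two-dimensional tracial C*-algebras which does not
absorb `C([0,1])`. -/

set_option autoImplicit false

namespace Pool.Agent.Results.MP_88a42c_an.NotAbsorbing

open Pool.Agent.X190.States Pool.Agent.X190.FreeProd Pool.Agent.X190.Absorb

/-- A faithful tracial state. -/
structure IsFaithfulTrace {B : Type} [CStarAlgebra B] (σ : B →L[ℂ] ℂ) : Prop where
  state : IsState σ
  trace : ∀ x y, σ (x * y) = σ (y * x)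
  faithful : ∀ x, σ (star x * x) = 0 → x = 0

/-- There is a sequence of separable unital C*-algebras `C k`, none equal to the scalars, with
faithful tracial states `σ k`, whose reduced free product `(A, φ)` is not isomorphic, as a
C*-algebra, to the reduced free product `E` of `(C([0,1]), Lebesgue)` and `(A, φ)`. -/
theorem result : ∃ (C : ℕ → Type) (_ : ∀ k, CStarAlgebra (C k)) (σ : ∀ k, C k →L[ℂ] ℂ),
      (∀ k, TopologicalSpace.SeparableSpace (C k)) ∧
      (∀ k, ∃ x : C k, ∀ r : ℂ, x ≠ r • (1 : C k)) ∧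
      (∀ k, IsFaithfulTrace (σ k)) ∧
      (∃ (A : Type) (_ : CStarAlgebra A) (φ : A →L[ℂ] ℂ) (e : ∀ k, C k →⋆ₐ[ℂ] A),
        IsRedFreeProd C σ φ e) ∧
      ∀ (A : Type) [CStarAlgebra A] (φ : A →L[ℂ] ℂ) (e : ∀ k, C k →⋆ₐ[ℂ] A),
        IsRedFreeProd C σ φ e →
        (∃ (E : Type) (_ : CStarAlgebra E) (τ : E →L[ℂ] ℂ)
          (i : C(unitInterval, ℂ) →⋆ₐ[ℂ] E) (k : A →⋆ₐ[ℂ] E), IsRedFreeProd₂ leb φ τ i k) ∧
        ∀ (E : Type) [CStarAlgebra E] (τ : E →L[ℂ] ℂ) (i : C(unitInterval, ℂ) →⋆ₐ[ℂ] E)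
          (k : A →⋆ₐ[ℂ] E), IsRedFreeProd₂ leb φ τ i k → ¬ Nonempty (A ≃⋆ₐ[ℂ] E) := by
  have hstate : ∀ k, IsState (two (wt k)) := fun k => two_isState (wt_pos k).le (wt_lt k).le
  refine ⟨fun _ => ℂ × ℂ, fun _ => inferInstance, fun k => two (wt k), fun _ => inferInstance,
    fun _ => ⟨(1, 0), fun r hr => ?_⟩, fun k => ⟨hstate k, fun x y => by rw [mul_comm],
      fun x hx => two_faithful (wt_pos k) (wt_lt k) hx⟩,
    exists_redFreeProd (fun _ : ℕ => ℂ × ℂ) (fun k => two (wt k)) hstate, ?_⟩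
  · have h1 : (1 : ℂ) = r := by simpa using congrArg Prod.fst hr
    have h2 : (0 : ℂ) = r := by simpa using congrArg Prod.snd hr
    rw [← h1] at h2
    exact zero_ne_one h2
  · intro A _ φ e h
    refine ⟨exists_redFreeProd₂ _ _ _ _ leb_state h.state, ?_⟩
    rintro E _ τ i k h₂ ⟨θ⟩
    obtain ⟨ω, hω, hmul⟩ := exists_char h
    obtain ⟨ψ, hψ, hψmul⟩ := transport θ hω hmul
    have hval : φ (e 0 (1, 0)) = (wt 0 : ℝ) := by
      rw [h.restrict, two_apply]
      simp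
    refine no_char h.state h₂ (p := e 0 (1, 0)) ?_ ?_ ?_ hψ hψmul
    · rw [← map_mul]
      simp
    · rw [hval]
      exact_mod_cast (wt_pos 0).ne'
    · rw [hval]
      exact_mod_cast (wt_lt 0).ne

end Pool.Agent.Results.MP_88a42c_an.NotAbsorbing
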